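import Pool.Agent.H785.RP.Final

/-!
# Failure of the isosystolic inequality for Finsler metrics on `RP^n`

The statement of Q1 is false: for some `n ≥ 3` (in fact for `n = 5`) there is a smooth, strongly
convex, non-reversible Finsler metric on `RP^n` for which every non-contractible closed curve has
length greater than `σ_n V^(1/n)`, `V` the Holmes–Thompson volume.
-/

open Pool.Agent.H785.RP

namespace Pool.Agent.Results.MP_282f00_gt.IsosystolicFails

theorem result : ∃ n : ℕ, 3 ≤ n ∧ ∃ F : Finsler n, F.htVolume < ⊤ ∧
    ∀ γ : ℝ → Co n, IsNoncontractible γ →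
      sigma n * F.htVolume.toReal ^ ((1 : ℝ) / n) < F.length γ :=
  ⟨5, by norm_num, main_five⟩

end Pool.Agent.Results.MP_282f00_gt.IsosystolicFails
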